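import Pool.Agent.W201.NT.StmT

/-!
NT-LN: open subsets of the line have no homology in positive degrees.
-/

set_option autoImplicit false

open Finsupp

namespace Pool.Agent.W196.NT

open Pool.Agent.Helper381 Pool.Agent.W201.NT

theorem van_empty (X : Type) [TopologicalSpace X] [IsEmpty X] (n : ℕ) : Van X n := by
  intro z _
  have : z = 0 := by
    ext σ
    exact isEmptyElim (σ (Classical.arbitrary _))
  rw [this]
  exact zero_mem _

theorem van_set_empty {X : Type} [TopologicalSpace X] (A : Set X) (hA : A = ∅) (n : ℕ) :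
    Van ↥A n := by
  subst hA
  exact van_empty _ n

theorem main (hHI : S_HI) (hCT : S_CT) (hMVS : S_MVS) (hCS : S_CS) : S_LN := by
  classical
  intro U hU n hn
  obtain ⟨m, rfl⟩ : ∃ m, n = m + 1 := ⟨n - 1, by omega⟩
  -- components
  have hcomp : ∀ x ∈ U, Van ↥(connectedComponentIn U x) (m + 1) := by
    intro x hx
    have hconv : Convex ℝ (connectedComponentIn U x) :=
      Real.convex_iff_isPreconnected.mpr isPreconnected_connectedComponentIn
    have hne : (connectedComponentIn U x).Nonempty := ⟨x, mem_connectedComponentIn hx⟩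
    exact hCT _ (hconv.contractibleSpace hne) (m + 1) (by omega)
  have hfin : ∀ s : Finset (Set ℝ), (∀ A ∈ s, ∃ x ∈ U, A = connectedComponentIn U x) →
      Van ↥(⋃ A ∈ s, A) (m + 1) := by
    intro s
    induction s using Finset.induction_on with
    | empty =>
      intro _
      exact van_set_empty _ (by simp) _
    | insert A s hAs ih =>
      intro h
      have hA := h A (Finset.mem_insert_self A s)
      have hs : ∀ B ∈ s, ∃ x ∈ U, B = connectedComponentIn U x :=
        fun B hB => h B (Finset.mem_insert_of_mem hB)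
      obtain ⟨x, hx, hAx⟩ := hA
      rw [Finset.set_biUnion_insert]
      apply hMVS ℝ A (⋃ B ∈ s, B)
      · rw [hAx]; exact hU.connectedComponentIn
      · apply isOpen_biUnion
        intro B hB
        obtain ⟨y, hy, rfl⟩ := hs B hB
        exact hU.connectedComponentIn
      · rw [hAx]; exact hcomp x hx
      · exact ih hs
      · apply van_set_empty
        ext z
        simp only [Set.mem_inter_iff, Set.mem_iUnion, Set.mem_empty_iff_false, iff_false]
        rintro ⟨hzA, B, hB, hzB⟩
        obtain ⟨y, hy, hBy⟩ := hs B hB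
        have e1 : connectedComponentIn U x = connectedComponentIn U z :=
          connectedComponentIn_eq (by rw [← hAx]; exact hzA)
        have e2 : connectedComponentIn U y = connectedComponentIn U z :=
          connectedComponentIn_eq (by rw [← hBy]; exact hzB)
        have : A = B := by rw [hAx, hBy, e1, e2]
        exact hAs (this ▸ hB)
  apply hCS
  intro K hK
  have hK' : IsCompact (Subtype.val '' K : Set ℝ) := hK.image continuous_subtype_val
  obtain ⟨t, ht⟩ := hK'.elim_finite_subcover (fun x : U => connectedComponentIn U x.1)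
    (fun x => hU.connectedComponentIn) (by
      rintro _ ⟨x, hx, rfl⟩
      exact Set.mem_iUnion.mpr ⟨x, mem_connectedComponentIn x.2⟩)
  set s : Finset (Set ℝ) := t.image (fun x : U => connectedComponentIn U x.1) with hs
  have hsW : Van ↥(⋃ A ∈ s, A) (m + 1) := by
    apply hfin
    intro A hA
    rw [hs, Finset.mem_image] at hA
    obtain ⟨x, -, rfl⟩ := hA
    exact ⟨x.1, x.2, rfl⟩
  set W : Set ℝ := ⋃ A ∈ s, A with hW
  have hWU : W ⊆ U := by
    intro z hz
    rw [hW] at hz
    simp only [Set.mem_iUnion] at hz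
    obtain ⟨A, hA, hzA⟩ := hz
    rw [hs, Finset.mem_image] at hA
    obtain ⟨x, -, rfl⟩ := hA
    exact connectedComponentIn_subset U x.1 hzA
  refine ⟨Subtype.val ⁻¹' W, ?_, ?_⟩
  · intro x hx
    have h1 := ht ⟨x, hx, rfl⟩
    simp only [Set.mem_iUnion] at h1
    obtain ⟨y, hy, hxy⟩ := h1
    change x.1 ∈ W
    rw [hW]
    simp only [Set.mem_iUnion]
    exact ⟨_, Finset.mem_image.mpr ⟨y, hy, rfl⟩, hxy⟩
  · let f : C(↥W, ↥(Subtype.val ⁻¹' W : Set ↥U)) :=
      ⟨fun w => ⟨⟨w.1, hWU w.2⟩, w.2⟩, by fun_prop⟩
    let g : C(↥(Subtype.val ⁻¹' W : Set ↥U), ↥W) := ⟨fun w => ⟨w.1.1, w.2⟩, by fun_prop⟩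
    refine hHI ↥W _ f g ?_ (m + 1) hsW
    have : f.comp g = ContinuousMap.id _ := by
      ext w
      rfl
    rw [this]

end Pool.Agent.W196.NT
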